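import Mathlib

/-!
A chessboard estimate for traces. `T` Hermitian, `S` Hermitian with `S ^ 2 = 1`. Among all words of length
`2 k` in the letters `T` and `T S` the trace of `T ^ (2 k)` has the largest absolute value.
-/

namespace Pool.Agent.Lib.MP_35c443_an

open Matrix

variable {ι : Type*} [Fintype ι] [DecidableEq ι]

/-- the letters `T` and `T S` -/
def letter (T S : Matrix ι ι ℂ) (b : Bool) : Matrix ι ι ℂ := if b then T * S else T

/-- the product of a word -/
def word (T S : Matrix ι ι ℂ) (L : List Bool) : Matrix ι ι ℂ := (L.map (letter T S)).prod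

theorem word_append (T S : Matrix ι ι ℂ) (L L' : List Bool) :
    word T S (L ++ L') = word T S L * word T S L' := by
  simp [word]

theorem word_cons (T S : Matrix ι ι ℂ) (b : Bool) (L : List Bool) :
    word T S (b :: L) = letter T S b * word T S L := by
  simp [word]

theorem word_singleton (T S : Matrix ι ι ℂ) (b : Bool) :
    word T S [b] = letter T S b := by
  simp [word]

theorem word_replicate (T S : Matrix ι ι ℂ) (b : Bool) (n : ℕ) :
    word T S (List.replicate n b) = letter T S b ^ n := by
  simp [word]

/-- the square of the Frobenius norm -/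
noncomputable def fro (A : Matrix ι ι ℂ) : ℝ := ∑ p : ι × ι, ‖A p.1 p.2‖ ^ 2

theorem fro_nonneg (A : Matrix ι ι ℂ) : 0 ≤ fro A := Finset.sum_nonneg fun _ _ => by positivity

theorem trace_mul_conjTranspose (A : Matrix ι ι ℂ) : trace (A * Aᴴ) = (fro A : ℂ) := by
  simp only [trace, diag_apply, mul_apply, conjTranspose_apply, fro]
  rw [Fintype.sum_prod_type]
  push_cast
  refine Finset.sum_congr rfl fun i _ => Finset.sum_congr rfl fun j _ => ?_
  have h := Complex.mul_conj' (A i j)
  simpa using h

theorem norm_trace_mul_le (A B : Matrix ι ι ℂ) : ‖trace (A * B)‖ ^ 2 ≤ fro A * fro B := by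
  have h1 : ‖trace (A * B)‖ ≤ ∑ p : ι × ι, ‖A p.1 p.2‖ * ‖B p.2 p.1‖ := by
    simp only [trace, diag_apply, mul_apply]
    rw [← Fintype.sum_prod_type (f := fun p : ι × ι => A p.1 p.2 * B p.2 p.1)]
    refine (norm_sum_le _ _).trans (Finset.sum_le_sum fun p _ => ?_)
    rw [norm_mul]
  have h2 : (∑ p : ι × ι, ‖A p.1 p.2‖ * ‖B p.2 p.1‖) ^ 2 ≤
      (∑ p : ι × ι, ‖A p.1 p.2‖ ^ 2) * ∑ p : ι × ι, ‖B p.2 p.1‖ ^ 2 :=
    Finset.sum_mul_sq_le_sq_mul_sq _ _ _
  have h3 : (∑ p : ι × ι, ‖B p.2 p.1‖ ^ 2) = fro B := by
    rw [fro]
    exact Fintype.sum_equiv (Equiv.prodComm ι ι) _ _ fun p => rfl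
  rw [h3] at h2
  exact (pow_le_pow_left₀ (norm_nonneg _) h1 2).trans h2

section
variable {T S : Matrix ι ι ℂ} (hT : Tᴴ = T) (hS : Sᴴ = S) (hSS : S * S = 1)
include hT hS hSS

theorem letter_mul (b : Bool) : letter T S b * (letter T S b)ᴴ = T * T := by
  cases b
  · simp [letter, hT]
  · simp only [letter, if_true, conjTranspose_mul, hT, hS]
    rw [Matrix.mul_assoc, ← Matrix.mul_assoc S S T, hSS, Matrix.one_mul]

omit hSS in
theorem mul_letter (b : Bool) : T * (letter T S b)ᴴ = letter T S b * T := by
  cases b
  · simp [letter, hT]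
  · simp only [letter, if_true, conjTranspose_mul, hT, hS, Matrix.mul_assoc]

omit hSS in
theorem mul_word (L : List Bool) : T * (word T S L)ᴴ = word T S L.reverse * T := by
  induction L with
  | nil => simp [word]
  | cons b L ih =>
    rw [word_cons, conjTranspose_mul, ← Matrix.mul_assoc, ih, Matrix.mul_assoc,
      mul_letter hT hS, List.reverse_cons, word_append, word_singleton, Matrix.mul_assoc]

theorem word_mul (L : List Bool) (b : Bool) :
    word T S (L ++ [b]) * (word T S (L ++ [b]))ᴴ =
      word T S (L ++ false :: (L.reverse ++ [false])) := by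
  rw [word_append, word_singleton, conjTranspose_mul]
  rw [show word T S L * letter T S b * ((letter T S b)ᴴ * (word T S L)ᴴ) =
    word T S L * (letter T S b * (letter T S b)ᴴ) * (word T S L)ᴴ by
      simp only [Matrix.mul_assoc]]
  rw [letter_mul hT hS hSS, word_append, word_cons, word_append, word_singleton]
  rw [show word T S L * (T * T) * (word T S L)ᴴ = word T S L * (T * (T * (word T S L)ᴴ)) by
      simp only [Matrix.mul_assoc]]
  rw [mul_word hT hS]
  rfl

theorem chess_step (L L' : List Bool) (b b' : Bool) :
    ‖trace (word T S ((L ++ [b]) ++ (L' ++ [b'])))‖ ^ 2 ≤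
      ‖trace (word T S (L ++ false :: (L.reverse ++ [false])))‖ *
      ‖trace (word T S (L' ++ false :: (L'.reverse ++ [false])))‖ := by
  rw [word_append, ← word_mul hT hS hSS L b, ← word_mul hT hS hSS L' b',
    trace_mul_conjTranspose, trace_mul_conjTranspose, Complex.norm_real, Complex.norm_real,
    Real.norm_of_nonneg (fro_nonneg _), Real.norm_of_nonneg (fro_nonneg _)]
  exact norm_trace_mul_le _ _

theorem chess (k : ℕ) (L : List Bool) (hL : L.length = 2 * k) :
    ‖trace (word T S L)‖ ≤ ‖trace (word T S (List.replicate (2 * k) false))‖ := by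
  obtain ⟨L0, hL0, hmax⟩ := Set.exists_max_image {L : List Bool | L.length = 2 * k}
    (fun L => ‖trace (word T S L)‖) (List.finite_length_eq Bool (2 * k)) ⟨L, hL⟩
  obtain ⟨L1, hL1, hmax1⟩ := Set.exists_max_image
    {L : List Bool | L.length = 2 * k ∧ ‖trace (word T S L)‖ = ‖trace (word T S L0)‖}
    (fun L => L.count false)
    ((List.finite_length_eq Bool (2 * k)).subset fun L h => h.1) ⟨L0, hL0, rfl⟩
  suffices h : L1 = List.replicate (2 * k) false by
    rw [← h, hL1.2]
    exact hmax L hL
  rw [List.eq_replicate_iff]
  refine ⟨hL1.1, fun b hb => ?_⟩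
  cases b with
  | false => rfl
  | true =>
    exfalso
    obtain ⟨A, B, hAB⟩ := List.append_of_mem hb
    -- rotate
    have hrot : trace (word T S (B ++ A ++ [true])) = trace (word T S L1) := by
      have e1 : word T S (B ++ A ++ [true]) = word T S B * (word T S A * letter T S true) := by
        rw [word_append, word_append, word_singleton, Matrix.mul_assoc]
      have e2 : word T S (A ++ true :: B) = (word T S A * letter T S true) * word T S B := by
        rw [word_append, word_cons, Matrix.mul_assoc]
      rw [hAB, e1, e2, Matrix.trace_mul_comm]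
    have hlen : (B ++ A ++ [true]).length = 2 * k := by
      rw [← hL1.1, hAB]
      simp
      omega
    have hcount : (B ++ A ++ [true]).count false = L1.count false := by
      rw [hAB]
      simp [List.count_append, List.count_cons]
      omega
    have hk : 1 ≤ k := by
      by_contra h
      have : k = 0 := by omega
      subst this
      simp at hlen
    -- split
    obtain ⟨C, hC, b, C', hC', hsplit⟩ : ∃ C : List Bool, C.length = k - 1 ∧ ∃ b : Bool,
        ∃ C' : List Bool, C'.length = k - 1 ∧ B ++ A = C ++ [b] ++ C' := by
      have hl : (B ++ A).length = 2 * k - 1 := by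
        have := hlen
        rw [List.length_append] at this
        simp only [List.length_singleton] at this
        omega
      refine ⟨(B ++ A).take (k - 1), ?_, (B ++ A)[k - 1]'(by omega), (B ++ A).drop k, ?_, ?_⟩
      · rw [List.length_take]
        omega
      · rw [List.length_drop]
        omega
      · rw [List.take_append_getElem (by omega)]
        rw [show k - 1 + 1 = k by omega, List.take_append_drop]
    have hst := chess_step hT hS hSS C C' b true
    have heq : (C ++ [b]) ++ (C' ++ [true]) = B ++ A ++ [true] := by
      rw [hsplit]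
      simp
    rw [heq, hrot, hL1.2] at hst
    set w1 := C ++ false :: (C.reverse ++ [false]) with hw1
    set w2 := C' ++ false :: (C'.reverse ++ [false]) with hw2
    have l1 : w1.length = 2 * k := by
      rw [hw1]
      simp
      omega
    have l2 : w2.length = 2 * k := by
      rw [hw2]
      simp
      omega
    have m1 := hmax w1 l1
    have m2 := hmax w2 l2
    have c1 : w1.count false = 2 * C.count false + 2 := by
      rw [hw1]
      simp [List.count_append, List.count_cons]
      omega
    have c2 : w2.count false = 2 * C'.count false + 2 := by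
      rw [hw2]
      simp [List.count_append, List.count_cons]
      omega
    have c3 : L1.count false ≤ C.count false + C'.count false + 1 := by
      rw [← hcount, hsplit]
      cases b <;> simp [List.count_append, List.count_cons] <;> omega
    rcases (norm_nonneg (trace (word T S L0))).eq_or_lt with h0 | h0
    · -- everything is zero
      have e1 : ‖trace (word T S w1)‖ = ‖trace (word T S L0)‖ :=
        le_antisymm m1 (h0.symm ▸ norm_nonneg _)
      have e2 : ‖trace (word T S w2)‖ = ‖trace (word T S L0)‖ :=
        le_antisymm m2 (h0.symm ▸ norm_nonneg _)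
      have f1 : w1.count false ≤ L1.count false := hmax1 w1 ⟨l1, e1⟩
      have f2 : w2.count false ≤ L1.count false := hmax1 w2 ⟨l2, e2⟩
      omega
    · have e1 : ‖trace (word T S w1)‖ = ‖trace (word T S L0)‖ := by
        refine le_antisymm m1 ?_
        by_contra hlt
        rw [not_le] at hlt
        have : ‖trace (word T S w1)‖ * ‖trace (word T S w2)‖ < ‖trace (word T S L0)‖ ^ 2 := by
          rw [pow_two]
          calc _ ≤ ‖trace (word T S w1)‖ * ‖trace (word T S L0)‖ :=
                mul_le_mul_of_nonneg_left m2 (norm_nonneg _)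
            _ < _ := mul_lt_mul_of_pos_right hlt h0
        linarith
      have e2 : ‖trace (word T S w2)‖ = ‖trace (word T S L0)‖ := by
        refine le_antisymm m2 ?_
        by_contra hlt
        rw [not_le] at hlt
        have : ‖trace (word T S w1)‖ * ‖trace (word T S w2)‖ < ‖trace (word T S L0)‖ ^ 2 := by
          rw [pow_two, e1]
          exact mul_lt_mul_of_pos_left hlt h0
        linarith
      have f1 : w1.count false ≤ L1.count false := hmax1 w1 ⟨l1, e1⟩
      have f2 : w2.count false ≤ L1.count false := hmax1 w2 ⟨l2, e2⟩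
      omega

/-- the trace inequality -/
theorem trace_nonneg (k : ℕ) : (0 : ℝ) ≤ (trace (T ^ (2 * k)) - trace ((T * S) ^ (2 * k))).re ∧
    (trace (T ^ (2 * k)) - trace ((T * S) ^ (2 * k))).im = 0 := by
  have h := chess hT hS hSS k (List.replicate (2 * k) true) (by simp)
  rw [word_replicate, word_replicate] at h
  simp only [letter, if_true] at h
  rw [if_neg (by simp)] at h
  have hpow : trace (T ^ (2 * k)) = (fro (T ^ k) : ℂ) := by
    rw [← trace_mul_conjTranspose, conjTranspose_pow, hT, ← pow_add, two_mul]
  have hcomm : ∀ n, trace ((S * T) ^ n) = trace ((T * S) ^ n) := by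
    intro n
    cases n with
    | zero => simp
    | succ n =>
      have : (T * S) ^ (n + 1) = T * ((S * T) ^ n * S) := by
        induction n with
        | zero => simp
        | succ n ih =>
          rw [pow_succ', ih, pow_succ' (S * T) n]
          simp only [Matrix.mul_assoc]
      rw [this, Matrix.trace_mul_comm, pow_succ, Matrix.mul_assoc]
  have hreal : (trace ((T * S) ^ (2 * k))).im = 0 := by
    have h1 : star (trace ((T * S) ^ (2 * k))) = trace ((T * S) ^ (2 * k)) := by
      rw [← trace_conjTranspose, conjTranspose_pow, conjTranspose_mul, hT, hS, hcomm]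
    exact Complex.conj_eq_iff_im.1 h1
  rw [hpow] at h ⊢
  rw [Complex.norm_real, Real.norm_of_nonneg (fro_nonneg _)] at h
  constructor
  · rw [Complex.sub_re, Complex.ofReal_re]
    have := (Complex.re_le_norm (trace ((T * S) ^ (2 * k)))).trans h
    linarith
  · rw [Complex.sub_im, Complex.ofReal_im, hreal, sub_zero]

end

end Pool.Agent.Lib.MP_35c443_an
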