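import Pool.Agent.Lib.MP_35c443_an.Walk

/-!
The sum over the step vectors is the sum over the closed walks, hence a limit of truncated sums.
-/

namespace Pool.Agent.Lib.MP_35c443_an

open Matrix Filter Topology

/-- the closed walk with the starting point `n` and the steps `j` -/
def walk {m : ℕ} (j : Fin (m + 1) → ℤ) (n : ℤ) : Fin (m + 1) → ℤ :=
  fun i => n + ∑ l ∈ Finset.Iio i, j l

theorem walk_zero {m : ℕ} (j : Fin (m + 1) → ℤ) (n : ℤ) : walk j n 0 = n := by
  have : Finset.Iio (0 : Fin (m + 1)) = ∅ := by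
    ext x
    simp
  simp [walk, this]

theorem walk_succ {m : ℕ} (j : Fin (m + 1) → ℤ) (n : ℤ) (i : Fin m) :
    walk j n i.succ = walk j n i.castSucc + j i.castSucc := by
  have h : Finset.Iio i.succ = insert i.castSucc (Finset.Iio i.castSucc) := by
    ext x
    rw [Finset.mem_insert, Finset.mem_Iio, Finset.mem_Iio, ← Fin.le_castSucc_iff, le_iff_eq_or_lt]
  rw [walk, walk, h, Finset.sum_insert (by simp)]
  ring

theorem walk_last {m : ℕ} (j : Fin (m + 1) → ℤ) (n : ℤ) (hj : ∑ i, j i = 0) :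
    j (Fin.last m) = n - walk j n (Fin.last m) := by
  have h : (Finset.univ : Finset (Fin (m + 1))) = insert (Fin.last m) (Finset.Iio (Fin.last m)) := by
    ext x
    rw [Finset.mem_insert, Finset.mem_Iio]
    simp only [Finset.mem_univ, true_iff]
    exact (Fin.le_last x).eq_or_lt
  rw [h, Finset.sum_insert (by simp)] at hj
  rw [walk]
  linarith

theorem coef_walk (c : ℤ → ℂ) {m : ℕ} (j : Fin (m + 1) → ℤ) (n : ℤ) (hj : ∑ i, j i = 0) :
    coef c (walk j n) = ∏ i, c (j i) := by
  rw [coef, Fin.prod_univ_castSucc, walk_zero, ← walk_last j n hj]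
  congr 1
  refine Finset.prod_congr rfl fun i _ => ?_
  rw [walk_succ]
  congr 1
  ring

/-- steps and starting point determine the closed walk -/
def E (m : ℕ) (p : {j : Fin (m + 1) → ℤ // ∑ i, j i = 0} × ℤ) : Fin (m + 1) → ℤ :=
  walk p.1.1 p.2

theorem E_bij (m : ℕ) : Function.Bijective (E m) := by
  constructor
  · rintro ⟨⟨j, hj⟩, n⟩ ⟨⟨j', hj'⟩, n'⟩ h
    simp only [E] at h
    have hn : n = n' := by
      have := congrFun h 0
      rwa [walk_zero, walk_zero] at this
    subst hn
    have hjj : j = j' := by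
      funext i
      induction i using Fin.lastCases with
      | last => rw [walk_last j n hj, walk_last j' n hj', h]
      | cast i =>
        have h1 := congrFun h i.succ
        have h2 := congrFun h i.castSucc
        rw [walk_succ, walk_succ, h2] at h1
        linarith
    subst hjj
    rfl
  · intro u
    let j : Fin (m + 1) → ℤ := Fin.snoc (fun i : Fin m => u i.succ - u i.castSucc)
      (u 0 - u (Fin.last m))
    have j1 : ∀ i : Fin m, j i.castSucc = u i.succ - u i.castSucc := fun i => by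
      simp only [j, Fin.snoc_castSucc]
    have j2 : j (Fin.last m) = u 0 - u (Fin.last m) := by
      simp only [j, Fin.snoc_last]
    have hw : ∀ i, walk j (u 0) i = u i := by
      intro i
      induction i using Fin.induction with
      | zero => exact walk_zero _ _
      | succ i ih =>
        rw [walk_succ, ih, j1]
        ring
    have hj : ∑ i, j i = 0 := by
      have h : (Finset.univ : Finset (Fin (m + 1))) =
          insert (Fin.last m) (Finset.Iio (Fin.last m)) := by
        ext x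
        rw [Finset.mem_insert, Finset.mem_Iio]
        simp only [Finset.mem_univ, true_iff]
        exact (Fin.le_last x).eq_or_lt
      rw [h, Finset.sum_insert (by simp), j2]
      have := hw (Fin.last m)
      rw [walk] at this
      linarith
    exact ⟨⟨⟨j, hj⟩, u 0⟩, funext hw⟩

/-- `|f| - f` for the product along the walk -/
def gg {m : ℕ} (j : Fin (m + 1) → ℤ) (n : ℤ) : ℤ :=
  |∏ i, walk j n i| - ∏ i, walk j n i

theorem gg_nonneg {m : ℕ} (j : Fin (m + 1) → ℤ) (n : ℤ) : 0 ≤ gg j n :=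
  sub_nonneg.2 (le_abs_self _)

theorem gg_finite {m k : ℕ} (hk : m + 1 = 2 * k) (j : Fin (m + 1) → ℤ) :
    (Function.support (gg j)).Finite := by
  set B : ℤ := ∑ i : Fin (m + 1), |∑ l ∈ Finset.Iio i, j l| with hB
  have hb : ∀ i : Fin (m + 1), |∑ l ∈ Finset.Iio i, j l| ≤ B := fun i =>
    Finset.single_le_sum (f := fun i : Fin (m + 1) => |∑ l ∈ Finset.Iio i, j l|)
      (fun _ _ => abs_nonneg _) (Finset.mem_univ i)
  refine (Set.finite_Icc (-B) B).subset fun n hn => ?_
  by_contra hc
  apply hn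
  rw [gg, abs_of_nonneg, sub_self]
  rw [Set.mem_Icc, not_and_or, not_le, not_le] at hc
  rcases hc with hc | hc
  · have h1 : ∏ i, walk j n i = (-1) ^ (m + 1) * ∏ i, (-walk j n i) := by
      rw [Finset.prod_neg, Finset.card_univ, Fintype.card_fin, ← mul_assoc, ← pow_add,
        Even.neg_one_pow ⟨m + 1, rfl⟩, one_mul]
    have h2 : (-1 : ℤ) ^ (m + 1) = 1 := by
      rw [hk]
      exact Even.neg_one_pow (even_two_mul k)
    rw [h1, h2, one_mul]
    refine Finset.prod_nonneg fun i _ => ?_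
    have := (abs_le.1 (hb i)).2
    rw [walk]
    linarith
  · refine Finset.prod_nonneg fun i _ => ?_
    have := (abs_le.1 (hb i)).1
    rw [walk]
    linarith

theorem piFinset_tendsto (m : ℕ) :
    Tendsto (fun s : Finset ℤ => Fintype.piFinset (fun _ : Fin (m + 1) => s)) atTop atTop := by
  classical
  refine Monotone.tendsto_atTop_atTop ?_ ?_
  · intro s t hst
    exact Fintype.piFinset_subset _ _ fun _ => hst
  · intro t
    refine ⟨t.biUnion fun v => Finset.univ.image v, fun v hv => ?_⟩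
    rw [Fintype.mem_piFinset]
    intro i
    rw [Finset.mem_biUnion]
    exact ⟨v, hv, Finset.mem_image_of_mem _ (Finset.mem_univ i)⟩

theorem main_succ (c : ℤ → ℂ) (hc : ∀ n, c (-n) = star (c n)) (m k : ℕ) (hk : m + 1 = 2 * k) :
    0 ≤ (∑' j : {j : Fin (m + 1) → ℤ // ∑ i, j i = 0},
        ((∑ᶠ n : ℤ, gg j.1 n : ℤ) : ℂ) * ∏ i, c (j.1 i)).re ∧
      (∑' j : {j : Fin (m + 1) → ℤ // ∑ i, j i = 0},
        ((∑ᶠ n : ℤ, gg j.1 n : ℤ) : ℂ) * ∏ i, c (j.1 i)).im = 0 := by
  by_cases hF : Summable fun j : {j : Fin (m + 1) → ℤ // ∑ i, j i = 0} =>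
      ((∑ᶠ n : ℤ, gg j.1 n : ℤ) : ℂ) * ∏ i, c (j.1 i)
  swap
  · rw [tsum_eq_zero_of_not_summable hF]
    simp
  have hfin := fun j : Fin (m + 1) → ℤ => gg_finite hk j
  have hreal : ∀ j : Fin (m + 1) → ℤ, ((∑ᶠ n : ℤ, gg j n : ℤ) : ℝ) = ∑' n, (gg j n : ℝ) := by
    intro j
    rw [finsum_eq_sum _ (hfin j), tsum_eq_sum (s := (hfin j).toFinset)]
    · push_cast
      rfl
    · intro b hb
      rw [Set.Finite.mem_toFinset, Function.mem_support, not_not] at hb
      rw [hb, Int.cast_zero]
  have hcomp : ∀ j : Fin (m + 1) → ℤ, ((∑ᶠ n : ℤ, gg j n : ℤ) : ℂ) = ∑' n, (gg j n : ℂ) := by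
    intro j
    rw [finsum_eq_sum _ (hfin j), tsum_eq_sum (s := (hfin j).toFinset)]
    · push_cast
      rfl
    · intro b hb
      rw [Set.Finite.mem_toFinset, Function.mem_support, not_not] at hb
      rw [hb, Int.cast_zero]
  have hH : ∀ p : {j : Fin (m + 1) → ℤ // ∑ i, j i = 0} × ℤ,
      G c (E m p) = (gg p.1.1 p.2 : ℂ) * ∏ i, c (p.1.1 i) := by
    rintro ⟨⟨j, hj⟩, n⟩
    rw [E, G, coef_walk c j n hj]
    rfl
  have hnorm : ∀ p : {j : Fin (m + 1) → ℤ // ∑ i, j i = 0} × ℤ,
      ‖G c (E m p)‖ = (gg p.1.1 p.2 : ℝ) * ‖∏ i, c (p.1.1 i)‖ := by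
    intro p
    rw [hH, norm_mul]
    congr 1
    rw [Complex.norm_intCast, abs_of_nonneg]
    exact_mod_cast gg_nonneg _ _
  have hsumH : Summable fun p : {j : Fin (m + 1) → ℤ // ∑ i, j i = 0} × ℤ => G c (E m p) := by
    refine Summable.of_norm ?_
    rw [summable_prod_of_nonneg fun p => norm_nonneg _]
    constructor
    · intro j
      refine summable_of_hasFiniteSupport ((hfin j.1).subset fun n hn => ?_)
      rw [Function.mem_support] at hn ⊢
      intro h0
      apply hn
      rw [hnorm]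
      simp only
      rw [h0, Int.cast_zero, zero_mul]
    · have : (fun j : {j : Fin (m + 1) → ℤ // ∑ i, j i = 0} => ∑' n : ℤ, ‖G c (E m (j, n))‖) =
          fun j => ‖((∑ᶠ n : ℤ, gg j.1 n : ℤ) : ℂ) * ∏ i, c (j.1 i)‖ := by
        funext j
        simp only [hnorm]
        rw [tsum_mul_right, ← hreal, norm_mul, Complex.norm_intCast, abs_of_nonneg]
        exact_mod_cast finsum_nonneg fun n => gg_nonneg _ _
      rw [this]
      exact hF.norm
  have htsum : (∑' j : {j : Fin (m + 1) → ℤ // ∑ i, j i = 0},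
        ((∑ᶠ n : ℤ, gg j.1 n : ℤ) : ℂ) * ∏ i, c (j.1 i)) = ∑' u : Fin (m + 1) → ℤ, G c u := by
    have h1 : ∑' p : {j : Fin (m + 1) → ℤ // ∑ i, j i = 0} × ℤ, G c (E m p) =
        ∑' u : Fin (m + 1) → ℤ, G c u :=
      (Equiv.ofBijective (E m) (E_bij m)).tsum_eq (G c)
    rw [← h1, hsumH.tsum_prod]
    refine tsum_congr fun j => ?_
    rw [hcomp, ← tsum_mul_right]
    exact tsum_congr fun n => (hH (j, n)).symm
  have hsumG : Summable (fun u : Fin (m + 1) → ℤ => G c u) :=
    ((Equiv.ofBijective (E m) (E_bij m)).summable_iff (f := G c)).1 hsumH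
  have hlim : Tendsto (fun s : Finset ℤ => ∑ u ∈ Fintype.piFinset (fun _ : Fin (m + 1) => s), G c u)
      atTop (𝓝 (∑' u : Fin (m + 1) → ℤ, G c u)) :=
    hsumG.hasSum.comp (piFinset_tendsto m)
  rw [htsum]
  constructor
  · exact ge_of_tendsto' ((Complex.continuous_re.tendsto _).comp hlim)
      fun s => (truncated c hc m k hk s).1
  · refine tendsto_nhds_unique ((Complex.continuous_im.tendsto _).comp hlim) ?_
    refine tendsto_const_nhds.congr fun s => ?_
    exact (truncated c hc m k hk s).2.symm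

end Pool.Agent.Lib.MP_35c443_an
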