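import Pool.Agent.Lib.MP_35c443_an.Chess

/-!
Traces of powers of matrices as sums over closed walks, and the inequality for the truncated sums.
-/

namespace Pool.Agent.Lib.MP_35c443_an

open Matrix

section
variable {ι : Type*} [Fintype ι] [DecidableEq ι]

theorem pow_sum (M : Matrix ι ι ℂ) (m : ℕ) : ∀ (x : ι) (g : ι → ℂ),
    ∑ y, (M ^ m) x y * g y = ∑ v : Fin m → ι,
      (∏ i : Fin m, M ((Fin.cons x v : Fin (m + 1) → ι) i.castSucc) (v i)) *
        g ((Fin.cons x v : Fin (m + 1) → ι) (Fin.last m)) := by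
  induction m with
  | zero =>
    intro x g
    simp only [pow_zero, Matrix.one_apply, ite_mul, one_mul, zero_mul, Finset.sum_ite_eq,
      Finset.mem_univ, if_true, Finset.univ_unique, Finset.sum_singleton, Finset.univ_eq_empty,
      Finset.prod_empty]
    rfl
  | succ m ih =>
    intro x g
    have h1 : ∀ y, (M ^ (m + 1)) x y * g y = ∑ z, M x z * ((M ^ m) z y * g y) := by
      intro y
      rw [pow_succ', Matrix.mul_apply, Finset.sum_mul]
      exact Finset.sum_congr rfl fun z _ => by ring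
    simp only [h1]
    rw [Finset.sum_comm]
    simp only [← Finset.mul_sum, ih]
    rw [← (Fin.consEquiv (fun _ : Fin (m + 1) => ι)).sum_comp, Fintype.sum_prod_type]
    refine Finset.sum_congr rfl fun z _ => ?_
    rw [Finset.mul_sum]
    refine Finset.sum_congr rfl fun v _ => ?_
    rw [Fin.prod_univ_succ]
    simp only [Fin.consEquiv_apply, Fin.castSucc_zero, Fin.cons_zero, Fin.cons_succ,
      ← Fin.succ_castSucc, ← Fin.succ_last]
    ring

/-- the trace as a sum over closed walks -/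
theorem trace_pow (M : Matrix ι ι ℂ) (m : ℕ) :
    trace (M ^ (m + 1)) = ∑ u : Fin (m + 1) → ι,
      (∏ i : Fin m, M (u i.castSucc) (u i.succ)) * M (u (Fin.last m)) (u 0) := by
  have h1 : trace (M ^ (m + 1)) = ∑ x, ∑ y, (M ^ m) x y * M y x := by
    simp only [trace, diag_apply, pow_succ, Matrix.mul_apply]
  rw [h1, ← (Fin.consEquiv (fun _ : Fin (m + 1) => ι)).sum_comp, Fintype.sum_prod_type]
  refine Finset.sum_congr rfl fun x _ => ?_
  rw [pow_sum M m x (fun y => M y x)]
  refine Finset.sum_congr rfl fun v _ => ?_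
  simp only [Fin.consEquiv_apply, Fin.cons_zero, Fin.cons_succ]

end

/-- the product of the coefficients along a closed walk -/
noncomputable def coef (c : ℤ → ℂ) {m : ℕ} (u : Fin (m + 1) → ℤ) : ℂ :=
  (∏ i : Fin m, c (u i.succ - u i.castSucc)) * c (u 0 - u (Fin.last m))

/-- the contribution of a closed walk -/
noncomputable def G (c : ℤ → ℂ) {m : ℕ} (u : Fin (m + 1) → ℤ) : ℂ :=
  (((|∏ i, u i| - ∏ i, u i : ℤ)) : ℂ) * coef c u

/-- the truncated sums are nonnegative -/
theorem truncated (c : ℤ → ℂ) (hc : ∀ n, c (-n) = star (c n)) (m k : ℕ) (hk : m + 1 = 2 * k)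
    (s : Finset ℤ) :
    0 ≤ (∑ u ∈ Fintype.piFinset (fun _ : Fin (m + 1) => s), G c u).re ∧
      (∑ u ∈ Fintype.piFinset (fun _ : Fin (m + 1) => s), G c u).im = 0 := by
  classical
  let T : Matrix s s ℂ := fun x y =>
    ((Real.sqrt |(x.1 : ℝ)| : ℝ) : ℂ) * c (y.1 - x.1) * ((Real.sqrt |(y.1 : ℝ)| : ℝ) : ℂ)
  let e : s → ℂ := fun x => if 0 ≤ x.1 then 1 else -1
  let S : Matrix s s ℂ := diagonal e
  have hT : Tᴴ = T := by
    ext x y
    simp only [conjTranspose_apply, T, star_mul']
    rw [show x.1 - y.1 = -(y.1 - x.1) by ring, hc, star_star]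
    have hr : ∀ r : ℝ, star ((r : ℝ) : ℂ) = (r : ℂ) := fun r => Complex.conj_ofReal r
    rw [hr, hr]
    ring
  have he : ∀ x, star (e x) = e x := by
    intro x
    by_cases h : 0 ≤ x.1 <;> simp [e, h]
  have hee : ∀ x, e x * e x = 1 := by
    intro x
    by_cases h : 0 ≤ x.1 <;> simp [e, h]
  have hS : Sᴴ = S := by
    simp only [S]
    rw [diagonal_conjTranspose]
    congr 1
    ext x
    exact he x
  have hSS : S * S = 1 := by
    simp only [S]
    rw [diagonal_mul_diagonal, ← diagonal_one]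
    congr 1
    ext x
    exact hee x
  have hmain := trace_nonneg hT hS hSS k
  rw [← hk, trace_pow, trace_pow] at hmain
  have hsq : ∀ x : ℤ, ((Real.sqrt |(x : ℝ)| : ℝ) : ℂ) * ((Real.sqrt |(x : ℝ)| : ℝ) : ℂ) =
      ((|x| : ℤ) : ℂ) := by
    intro x
    rw [← Complex.ofReal_mul, Real.mul_self_sqrt (abs_nonneg _), ← Int.cast_abs,
      Complex.ofReal_intCast]
  have hprod : ∀ u : Fin (m + 1) → s,
      (∏ i : Fin m, T (u i.castSucc) (u i.succ)) * T (u (Fin.last m)) (u 0) =
      (((|∏ i, (u i).1| : ℤ)) : ℂ) * coef c (fun i => (u i).1) := by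
    intro u
    simp only [T, coef, Finset.prod_mul_distrib]
    have h1 := Fin.prod_univ_castSucc (fun i => ((Real.sqrt |((u i).1 : ℝ)| : ℝ) : ℂ))
    have h2 := Fin.prod_univ_succ (fun i => ((Real.sqrt |((u i).1 : ℝ)| : ℝ) : ℂ))
    have h3 : (((|∏ i, (u i).1| : ℤ)) : ℂ) =
        (∏ i, ((Real.sqrt |((u i).1 : ℝ)| : ℝ) : ℂ)) *
        (∏ i, ((Real.sqrt |((u i).1 : ℝ)| : ℝ) : ℂ)) := by
      rw [← Finset.prod_mul_distrib, Finset.abs_prod, Int.cast_prod]
      exact Finset.prod_congr rfl fun i _ => (hsq _).symm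
    rw [h3]
    nth_rewrite 1 [h1]
    rw [h2]
    ring
  have hprodS : ∀ u : Fin (m + 1) → s,
      (∏ i : Fin m, (T * S) (u i.castSucc) (u i.succ)) * (T * S) (u (Fin.last m)) (u 0) =
      (((∏ i, (u i).1 : ℤ)) : ℂ) * coef c (fun i => (u i).1) := by
    intro u
    have hTS : ∀ x y, (T * S) x y = T x y * e y := by
      intro x y
      simp only [S]
      rw [mul_diagonal]
    simp only [hTS, Finset.prod_mul_distrib]
    have h1 := hprod u
    have h2 := Fin.prod_univ_succ (fun i => e (u i))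
    have h3 : (∏ i, e (u i)) * (((|∏ i, (u i).1| : ℤ)) : ℂ) = (((∏ i, (u i).1 : ℤ)) : ℂ) := by
      rw [Finset.abs_prod, Int.cast_prod, Int.cast_prod, ← Finset.prod_mul_distrib]
      refine Finset.prod_congr rfl fun i _ => ?_
      by_cases h : 0 ≤ (u i).1
      · rw [abs_of_nonneg h]
        simp only [e, h, if_true, one_mul]
      · rw [abs_of_neg (not_le.1 h)]
        simp only [e, h, if_false]
        push_cast
        ring
    rw [← h3, h2]
    rw [show (∏ i : Fin m, T (u i.castSucc) (u i.succ)) * (∏ i : Fin m, e (u i.succ)) *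
      (T (u (Fin.last m)) (u 0) * e (u 0)) =
      (e (u 0) * ∏ i : Fin m, e (u i.succ)) *
      ((∏ i : Fin m, T (u i.castSucc) (u i.succ)) * T (u (Fin.last m)) (u 0)) by ring, h1]
    ring
  have hfin : (∑ u ∈ Fintype.piFinset (fun _ : Fin (m + 1) => s), G c u) =
      (∑ u : Fin (m + 1) → s,
        (∏ i : Fin m, T (u i.castSucc) (u i.succ)) * T (u (Fin.last m)) (u 0)) -
      (∑ u : Fin (m + 1) → s,
        (∏ i : Fin m, (T * S) (u i.castSucc) (u i.succ)) * (T * S) (u (Fin.last m)) (u 0)) := by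
    rw [← Finset.sum_sub_distrib]
    refine (Finset.sum_bij (fun (u : Fin (m + 1) → s) _ => fun i => (u i).1) ?_ ?_ ?_ ?_).symm
    · intro u _
      rw [Fintype.mem_piFinset]
      exact fun i => (u i).2
    · intro u _ v _ huv
      funext i
      exact Subtype.ext (congrFun huv i)
    · intro v hv
      rw [Fintype.mem_piFinset] at hv
      exact ⟨fun i => ⟨v i, hv i⟩, Finset.mem_univ _, rfl⟩
    · intro u _
      rw [hprod, hprodS, G]
      push_cast
      ring
  rw [hfin]
  exact hmain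

end Pool.Agent.Lib.MP_35c443_an
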